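import Mathlib
import Pool.Agent.P.MP_55663b_lc.Final

namespace Pool.Agent.Results.MP_55663b_lc.StrongLinear

/-- The nonzero dual words of weight at most three of a binary linear code. -/
def lowDualSet {n : ℕ} (C : Submodule (ZMod 2) (Fin n → ZMod 2)) : Set (Fin n → ZMod 2) :=
  {u | (∀ c ∈ C, ∑ i, u i * c i = 0) ∧ 0 < hammingNorm u ∧ hammingNorm u ≤ 3}

theorem result : ∃ ρ δ κ M : ℝ, 0 < ρ ∧ 0 < δ ∧ 0 < κ ∧ ∀ N : ℕ, ∃ n : ℕ, N ≤ n ∧
    ∃ C : Submodule (ZMod 2) (Fin n → ZMod 2),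
      ρ * n ≤ Module.finrank (ZMod 2) C ∧
      (∀ c ∈ C, c ≠ 0 → δ * n ≤ hammingNorm c) ∧
      ((lowDualSet C).ncard : ℝ) ≤ M * n ∧
      ∀ w : Fin n → ZMod 2, ∃ c ∈ C, κ * ((hammingDist w c : ℝ) / n) ≤
        ({u ∈ lowDualSet C | ∑ i, u i * w i ≠ 0}.ncard : ℝ) / (lowDualSet C).ncard := by
  classical
  obtain ⟨r, K, M, hfam⟩ := Pool.Agent.P.MP_55663b_lc.exists_final
  have hr1 : (0 : ℝ) < r + 1 := by positivity
  refine ⟨1 / (r + 1), 1 / (r + 1), 1 / ((K + 1) * (M + 1)), M, by positivity, by positivity,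
    by positivity, fun N => ?_⟩
  obtain ⟨n, hn, C, h1, h2, h3, h4⟩ := hfam (N + 1)
  rw [Fintype.card_fin] at h1 h4
  have hn0 : (0 : ℝ) < n := Nat.cast_pos.2 (by omega)
  have e1 : (lowDualSet C).ncard = (Pool.Agent.P.MP_55663b_lc.lowDual C).card := by
    rw [← Set.ncard_coe_finset]
    congr 1
    ext u
    simp [Pool.Agent.P.MP_55663b_lc.lowDual, lowDualSet]
  have e2 : ∀ w : Fin n → ZMod 2, {u ∈ lowDualSet C | ∑ i, u i * w i ≠ 0}.ncard =
      (Pool.Agent.P.MP_55663b_lc.violDual C w).card := by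
    intro w
    rw [← Set.ncard_coe_finset]
    congr 1
    ext u
    simp [Pool.Agent.P.MP_55663b_lc.violDual, lowDualSet, and_assoc]
  have h5 : ((Pool.Agent.P.MP_55663b_lc.lowDual C).card : ℝ) ≤ M * n := by exact_mod_cast h4
  refine ⟨n, by omega, C, ?_, fun c hc h0 => ?_, by rw [e1]; exact h5, fun w => ?_⟩
  · have h6 : (n : ℝ) ≤ r * Module.finrank (ZMod 2) C := by exact_mod_cast h1
    rw [one_div_mul_eq_div, div_le_iff₀ hr1]
    have : (0 : ℝ) ≤ Module.finrank (ZMod 2) C := Nat.cast_nonneg _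
    linarith
  · have h6 := h2 c hc h0
    rw [Fintype.card_fin] at h6
    have h7 : (n : ℝ) ≤ r * hammingNorm c := by exact_mod_cast h6
    rw [one_div_mul_eq_div, div_le_iff₀ hr1]
    have : (0 : ℝ) ≤ hammingNorm c := Nat.cast_nonneg _
    linarith
  · obtain ⟨c, hc, hd⟩ := h3 w
    refine ⟨c, hc, ?_⟩
    rw [e1, e2]
    have hsub : Pool.Agent.P.MP_55663b_lc.violDual C w ⊆ Pool.Agent.P.MP_55663b_lc.lowDual C := by
      intro u hu
      simp only [Pool.Agent.P.MP_55663b_lc.violDual, Pool.Agent.P.MP_55663b_lc.lowDual,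
        Finset.mem_filter, Finset.mem_univ, true_and] at hu ⊢
      exact ⟨hu.1, hu.2.1, hu.2.2.1⟩
    have h6 := Finset.card_le_card hsub
    set V := (Pool.Agent.P.MP_55663b_lc.violDual C w).card
    set T := (Pool.Agent.P.MP_55663b_lc.lowDual C).card
    have h7 : (hammingDist w c : ℝ) ≤ K * V := by exact_mod_cast hd
    have hV0 : (0 : ℝ) ≤ V := Nat.cast_nonneg _
    rcases hV0.eq_or_lt with h0 | hV
    · have h8 : (hammingDist w c : ℝ) = 0 :=
        le_antisymm (by rw [← h0, mul_zero] at h7; exact h7) (Nat.cast_nonneg _)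
      rw [h8, ← h0]
      simp
    · have hT : (0 : ℝ) < T := lt_of_lt_of_le hV (by exact_mod_cast h6)
      rw [div_mul_div_comm, one_mul, div_le_div_iff₀ (by positivity) hT]
      calc (hammingDist w c : ℝ) * T ≤ K * V * (M * n) :=
            mul_le_mul h7 h5 hT.le (by positivity)
        _ = V * (K * M * n) := by ring
        _ ≤ V * ((K + 1) * (M + 1) * n) := by
            refine mul_le_mul_of_nonneg_left (mul_le_mul_of_nonneg_right ?_ hn0.le) hV0
            exact mul_le_mul (le_add_of_nonneg_right zero_le_one)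
              (le_add_of_nonneg_right zero_le_one) (Nat.cast_nonneg _) (by positivity)

end Pool.Agent.Results.MP_55663b_lc.StrongLinear
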